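import Pool.Agent.Q161.OD.Stm
import Pool.Agent.Q247.EL.CNT

set_option autoImplicit false

/-!
# Project OD (helper161): job CNT2
-/

namespace Pool.Agent.Q277.OD

open Finset NumberField IsDedekindDomain
open Pool.Agent.Q51.EL Pool.Agent.Q161.OD Pool.Agent.Q247.EL

section

variable (L : Type) [Field L] [NumberField L] {l : ℕ}

/-- classes with `l ∤ m`, `α` in the prime `v0` -/
def Sb (T : Set (𝓞 L × ℤ)) (v0 : VV L l) : Set ((∀ v : VV L l, 𝓞 L ⧸ v.1.asIdeal) × ZMod l) :=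
  {x | Ideal.absNorm v0.1.asIdeal = l ∧ ∃ p ∈ T, ¬ (l : ℤ) ∣ p.2 ∧ p.1 ∈ v0.1.asIdeal ∧
    (∀ v : VV L l, v ≠ v0 → p.1 ∉ v.1.asIdeal) ∧ (Th L p.1, (p.2 : ZMod l)) = x}

/-- classes with `l ∣ m` -/
def Sc (l : ℕ) (T : Set (𝓞 L × ℤ)) : Set ((∀ v : VV L l, 𝓞 L ⧸ v.1.asIdeal) × ZMod l) :=
  {x | ∃ p ∈ T, (l : ℤ) ∣ p.2 ∧ (∀ v : VV L l, p.1 ∉ v.1.asIdeal) ∧
    (Th L p.1, (p.2 : ZMod l)) = x}

/-- integers congruent modulo `l` -/
theorem mk_int {v : VV L l} {a b : ℤ} (h : (l : ℤ) ∣ a - b) :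
    Ideal.Quotient.mk v.1.asIdeal (a : 𝓞 L) = Ideal.Quotient.mk v.1.asIdeal (b : 𝓞 L) := by
  rw [Ideal.Quotient.eq]
  obtain ⟨m, hm⟩ := h
  have h3 : (a : 𝓞 L) - (b : 𝓞 L) = (m : 𝓞 L) * (l : 𝓞 L) := by
    have : ((a - b : ℤ) : 𝓞 L) = ((l * m : ℤ) : 𝓞 L) := by rw [hm]
    push_cast at this
    rw [this, mul_comm]
  rw [h3]
  exact v.1.asIdeal.mul_mem_left _ v.2

/-- in a field, if `e x a = g²`, `e, a ≠ 0` then `x = a e (square)` -/
theorem solve {k : Type} [CommRing k] [IsDomain k] (hinv : ∀ a : k, a ≠ 0 → ∃ b, a * b = 1)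
    {e x a g : k} (he : e ≠ 0) (ha : a ≠ 0) (hx : x ≠ 0) (h : e * x * a = g ^ 2) :
    ∃ q : k, (q ≠ 0 ∧ ∃ s, q = s * s) ∧ a * e * q = x := by
  obtain ⟨W, hW⟩ := hinv (e * a) (mul_ne_zero he ha)
  have h3 : a * e * ((g * W) * (g * W)) = x := by
    calc a * e * ((g * W) * (g * W)) = a * e * g ^ 2 * (W * W) := by ring
      _ = x * ((e * a) * W) ^ 2 := by rw [← h]; ring
      _ = x := by rw [hW, one_pow, mul_one]
  refine ⟨(g * W) * (g * W), ⟨?_, _, rfl⟩, h3⟩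
  intro h0
  rw [h0, mul_zero] at h3
  exact hx h3.symm

open Classical in
theorem Sb_card (hl : l.Prime) (hl2 : l ≠ 2) [Fintype (VV L l)] (T : Set (𝓞 L × ℤ)) (hT2 : P2 l T)
    (v0 : VV L l) : ((Sb L T v0).ncard : ℝ) ≤ if Ideal.absNorm v0.1.asIdeal = l then
      ((l : ℝ) - 1) * ∏ v : VV L l,
        (if v = v0 then (1 : ℝ) else (Nat.card (𝓞 L ⧸ v.1.asIdeal) : ℝ) / 2) else 0 := by
  have : Fact l.Prime := ⟨hl⟩
  have : ∀ v : VV L l, Finite (𝓞 L ⧸ v.1.asIdeal) := finite_k L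
  have : ∀ v : VV L l, Fintype (𝓞 L ⧸ v.1.asIdeal) := fun v => Fintype.ofFinite _
  have : ∀ v : VV L l, IsDomain (𝓞 L ⧸ v.1.asIdeal) := fun v => by
    have := v.1.isPrime
    infer_instance
  have hl1 : (1 : ℝ) ≤ l := by exact_mod_cast hl.one_lt.le
  by_cases hn : Ideal.absNorm v0.1.asIdeal = l
  swap
  · rw [if_neg hn]
    have : Sb L T v0 = ∅ := by
      ext x
      simp [Sb, hn]
    rw [this]
    simp
  rw [if_pos hn]
  have hprod0 : 0 ≤ ∏ v : VV L l, (if v = v0 then (1 : ℝ) else (Nat.card (𝓞 L ⧸ v.1.asIdeal) : ℝ) / 2) := by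
    refine prod_nonneg fun v _ => ?_
    split_ifs <;> positivity
  by_cases hne : (Sb L T v0).Nonempty
  swap
  · rw [Set.not_nonempty_iff_eq_empty] at hne
    rw [hne, Set.ncard_empty, Nat.cast_zero]
    exact mul_nonneg (by linarith) hprod0
  obtain ⟨x', _, ⟨β', m'⟩, hβ'T, hm', hβ'0, hβ'v, _⟩ := hne
  simp only at hm' hβ'0 hβ'v
  let Q : ∀ v : VV L l, Finset (𝓞 L ⧸ v.1.asIdeal) := fun v =>
    if v = v0 then {0} else (Set.toFinite ({x : 𝓞 L ⧸ v.1.asIdeal | x ≠ 0 ∧ ∃ s, x = s * s})).toFinset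
  let F : (∀ v : VV L l, 𝓞 L ⧸ v.1.asIdeal) × ZMod l → (∀ v : VV L l, 𝓞 L ⧸ v.1.asIdeal) × ZMod l :=
    fun qz => (fun v => Ideal.Quotient.mk v.1.asIdeal β' *
      Ideal.Quotient.mk v.1.asIdeal (((qz.2.val : ℤ) * m' : ℤ) : 𝓞 L) * qz.1 v, qz.2)
  have hsub : Sb L T v0 ⊆ (((Fintype.piFinset Q) ×ˢ (univ.erase (0 : ZMod l))).image F :
      Finset ((∀ v : VV L l, 𝓞 L ⧸ v.1.asIdeal) × ZMod l)) := by
    rintro x ⟨_, ⟨β, m⟩, hβT, hm, hβ0, hβv, rfl⟩
    simp only at hm hβ0 hβv ⊢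
    have hlm : (l : ℤ) ∣ m - ((m : ZMod l).val : ℤ) := by
      rw [← ZMod.intCast_zmod_eq_zero_iff_dvd]
      push_cast
      rw [ZMod.natCast_val, ZMod.cast_id', id, sub_self]
    have key : ∀ v : VV L l, ∃ q : 𝓞 L ⧸ v.1.asIdeal, q ∈ Q v ∧
        Ideal.Quotient.mk v.1.asIdeal β' *
          Ideal.Quotient.mk v.1.asIdeal ((((m : ZMod l).val : ℤ) * m' : ℤ) : 𝓞 L) * q =
          Ideal.Quotient.mk v.1.asIdeal β := by
      intro v
      by_cases hv : v = v0
      · refine ⟨0, ?_, ?_⟩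
        · simp only [Q, if_pos hv]
          simp
        · rw [mul_zero, hv]
          exact ((Ideal.Quotient.eq_zero_iff_mem).2 hβ0).symm
      · have := v.1.isMaximal
        have hB' : Ideal.Quotient.mk v.1.asIdeal β' ≠ 0 := fun h =>
          hβ'v v hv ((Ideal.Quotient.eq_zero_iff_mem).1 h)
        have hB : Ideal.Quotient.mk v.1.asIdeal β ≠ 0 := fun h =>
          hβv v hv ((Ideal.Quotient.eq_zero_iff_mem).1 h)
        have hE : Ideal.Quotient.mk v.1.asIdeal ((m * m' : ℤ) : 𝓞 L) ≠ 0 := fun h => by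
          have h1 := int_mem L hl v _ ((Ideal.Quotient.eq_zero_iff_mem).1 h)
          rcases (Nat.prime_iff_prime_int.1 hl).dvd_or_dvd h1 with h2 | h2
          · exact hm h2
          · exact hm' h2
        obtain ⟨g, hg'⟩ := hT2.1 _ hβT _ hβ'T v0.1 v0.2 hβ0 hβ'0 v.1 v.2 (fun h => hv (Subtype.ext h))
        have h1 : Ideal.Quotient.mk v.1.asIdeal ((m * m' : ℤ) : 𝓞 L) * Ideal.Quotient.mk v.1.asIdeal β *
            Ideal.Quotient.mk v.1.asIdeal β' = Ideal.Quotient.mk v.1.asIdeal g ^ 2 := by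
          rw [← map_mul, ← map_mul, ← map_pow]
          exact (Ideal.Quotient.eq).2 hg'
        obtain ⟨q, hq, hq2⟩ := solve (fun a ha => Ideal.Quotient.exists_inv ha) hE hB' hB h1
        have h4 : Ideal.Quotient.mk v.1.asIdeal ((((m : ZMod l).val : ℤ) * m' : ℤ) : 𝓞 L) =
            Ideal.Quotient.mk v.1.asIdeal ((m * m' : ℤ) : 𝓞 L) := by
          refine (mk_int L ?_).symm
          rw [← sub_mul]
          exact hlm.mul_right m'
        refine ⟨q, ?_, by rw [h4]; exact hq2⟩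
        simp only [Q, if_neg hv]
        rw [Set.Finite.mem_toFinset]
        exact hq
    choose q hq1 hq2 using key
    rw [Finset.coe_image]
    refine ⟨(q, (m : ZMod l)), ?_, ?_⟩
    · rw [Finset.mem_coe, mem_product]
      refine ⟨Fintype.mem_piFinset.2 hq1, ?_⟩
      rw [mem_erase]
      refine ⟨?_, mem_univ _⟩
      rw [Ne, ZMod.intCast_zmod_eq_zero_iff_dvd]
      exact hm
    · simp only [F, Prod.mk.injEq, and_true]
      funext v
      exact hq2 v
  have h1 : (Sb L T v0).ncard ≤ (Fintype.piFinset Q).card * (l - 1) := by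
    refine (Set.ncard_le_ncard hsub (Finset.finite_toSet _)).trans ?_
    rw [Set.ncard_coe_finset]
    refine card_image_le.trans (le_of_eq ?_)
    rw [card_product, card_erase_of_mem (mem_univ _), card_univ, ZMod.card]
  have h2 : ((Fintype.piFinset Q).card : ℝ) ≤
      ∏ v : VV L l, (if v = v0 then (1 : ℝ) else (Nat.card (𝓞 L ⧸ v.1.asIdeal) : ℝ) / 2) := by
    rw [Fintype.card_piFinset]
    push_cast
    refine prod_le_prod (fun v _ => Nat.cast_nonneg _) fun v _ => ?_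
    by_cases hv : v = v0
    · simp only [Q, if_pos hv]
      simp
    · simp only [Q, if_neg hv]
      have h20 : (2 : 𝓞 L ⧸ v.1.asIdeal) ≠ 0 := by
        intro h0
        have h3 : Ideal.Quotient.mk v.1.asIdeal ((2 : ℤ) : 𝓞 L) = 0 := by
          rw [Int.cast_ofNat, map_ofNat]
          exact h0
        have h4 := int_mem L hl v 2 ((Ideal.Quotient.eq_zero_iff_mem).1 h3)
        have h5 : l ∣ 2 := by exact_mod_cast h4
        exact hl2 ((Nat.prime_dvd_prime_iff_eq hl Nat.prime_two).1 h5)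
      have h3 := card_sq (𝓞 L ⧸ v.1.asIdeal) h20
      rw [Set.ncard_eq_toFinset_card _ (Set.toFinite _)] at h3
      exact h3
  have h3 : ((Sb L T v0).ncard : ℝ) ≤ ((Fintype.piFinset Q).card : ℝ) * ((l : ℝ) - 1) := by
    have h4 : ((l - 1 : ℕ) : ℝ) = (l : ℝ) - 1 := by
      rw [Nat.cast_sub hl.one_lt.le, Nat.cast_one]
    rw [← h4]
    exact_mod_cast h1
  refine h3.trans ?_
  rw [mul_comm]
  exact mul_le_mul_of_nonneg_left h2 (by linarith)

open Classical in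
theorem Sc_card (hl : l.Prime) (hl2 : l ≠ 2) [Fintype (VV L l)] (T : Set (𝓞 L × ℤ)) (hT2 : P2 l T) :
    ((Sc L l T).ncard : ℝ) ≤ 2 * ∏ v : VV L l, (Nat.card (𝓞 L ⧸ v.1.asIdeal) : ℝ) / 2 := by
  have : Fact l.Prime := ⟨hl⟩
  have : ∀ v : VV L l, Finite (𝓞 L ⧸ v.1.asIdeal) := finite_k L
  have : ∀ v : VV L l, Fintype (𝓞 L ⧸ v.1.asIdeal) := fun v => Fintype.ofFinite _
  have : ∀ v : VV L l, IsDomain (𝓞 L ⧸ v.1.asIdeal) := fun v => by
    have := v.1.isPrime
    infer_instance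
  have hprod0 : 0 ≤ ∏ v : VV L l, (Nat.card (𝓞 L ⧸ v.1.asIdeal) : ℝ) / 2 :=
    prod_nonneg fun v _ => by positivity
  by_cases hne : (Sc L l T).Nonempty
  swap
  · rw [Set.not_nonempty_iff_eq_empty] at hne
    rw [hne, Set.ncard_empty, Nat.cast_zero]
    exact mul_nonneg (by norm_num) hprod0
  obtain ⟨x', ⟨β', m'⟩, hβ'T, hm', hβ'v, _⟩ := hne
  simp only at hm' hβ'v
  obtain ⟨u, hu, heps⟩ := eps l hl hl2
  let Q : ∀ v : VV L l, Finset (𝓞 L ⧸ v.1.asIdeal) := fun v =>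
    (Set.toFinite ({x : 𝓞 L ⧸ v.1.asIdeal | x ≠ 0 ∧ ∃ s, x = s * s})).toFinset
  let F : ℤ → (∀ v : VV L l, 𝓞 L ⧸ v.1.asIdeal) → (∀ v : VV L l, 𝓞 L ⧸ v.1.asIdeal) × ZMod l :=
    fun e q => (fun v => Ideal.Quotient.mk v.1.asIdeal β' *
      Ideal.Quotient.mk v.1.asIdeal (e : 𝓞 L) * q v, 0)
  have hsub : Sc L l T ⊆ ((Fintype.piFinset Q).image (F 1) ∪ (Fintype.piFinset Q).image (F u) :
      Finset ((∀ v : VV L l, 𝓞 L ⧸ v.1.asIdeal) × ZMod l)) := by
    rintro x ⟨⟨β, m⟩, hβT, hm, hβv, rfl⟩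
    simp only at hm hβv ⊢
    obtain ⟨c, hc, hg⟩ := hT2.2 _ hβT _ hβ'T hm hm'
    obtain ⟨e, d, he, hle, hld, hlc⟩ := heps c hc
    have key : ∀ v : VV L l, ∃ q : 𝓞 L ⧸ v.1.asIdeal, q ∈ Q v ∧
        Ideal.Quotient.mk v.1.asIdeal β' * Ideal.Quotient.mk v.1.asIdeal (e : 𝓞 L) * q =
          Ideal.Quotient.mk v.1.asIdeal β := by
      intro v
      have := v.1.isMaximal
      have hB' : Ideal.Quotient.mk v.1.asIdeal β' ≠ 0 := fun h =>
        hβ'v v ((Ideal.Quotient.eq_zero_iff_mem).1 h)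
      have hB : Ideal.Quotient.mk v.1.asIdeal β ≠ 0 := fun h =>
        hβv v ((Ideal.Quotient.eq_zero_iff_mem).1 h)
      have hE : Ideal.Quotient.mk v.1.asIdeal (e : 𝓞 L) ≠ 0 := fun h =>
        hle (int_mem L hl v e ((Ideal.Quotient.eq_zero_iff_mem).1 h))
      have hD : Ideal.Quotient.mk v.1.asIdeal (d : 𝓞 L) ≠ 0 := fun h =>
        hld (int_mem L hl v d ((Ideal.Quotient.eq_zero_iff_mem).1 h))
      obtain ⟨d', hd'⟩ := Ideal.Quotient.exists_inv hD
      obtain ⟨g, hg'⟩ := hg v.1 v.2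
      have h1 : Ideal.Quotient.mk v.1.asIdeal (c : 𝓞 L) * Ideal.Quotient.mk v.1.asIdeal β *
          Ideal.Quotient.mk v.1.asIdeal β' = Ideal.Quotient.mk v.1.asIdeal g ^ 2 := by
        rw [← map_mul, ← map_mul, ← map_pow]
        exact (Ideal.Quotient.eq).2 hg'
      have h2 : Ideal.Quotient.mk v.1.asIdeal (c : 𝓞 L) =
          Ideal.Quotient.mk v.1.asIdeal (e : 𝓞 L) * Ideal.Quotient.mk v.1.asIdeal (d : 𝓞 L) ^ 2 := by
        have h3 := mk_int L (v := v) hlc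
        rw [h3]
        push_cast
        rw [map_mul, map_pow]
      have h3 : Ideal.Quotient.mk v.1.asIdeal (e : 𝓞 L) * Ideal.Quotient.mk v.1.asIdeal β *
          Ideal.Quotient.mk v.1.asIdeal β' = (Ideal.Quotient.mk v.1.asIdeal g * d') ^ 2 := by
        rw [mul_pow, ← h1, h2]
        calc _ = Ideal.Quotient.mk v.1.asIdeal (e : 𝓞 L) * Ideal.Quotient.mk v.1.asIdeal β *
              Ideal.Quotient.mk v.1.asIdeal β' * (Ideal.Quotient.mk v.1.asIdeal (d : 𝓞 L) * d') ^ 2 := by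
              rw [hd', one_pow, mul_one]
          _ = _ := by ring
      obtain ⟨q, hq, hq2⟩ := solve (fun a ha => Ideal.Quotient.exists_inv ha) hE hB' hB h3
      refine ⟨q, ?_, hq2⟩
      simp only [Q]
      rw [Set.Finite.mem_toFinset]
      exact hq
    choose q hq1 hq2 using key
    have hqF : F e q = (Th L β, (m : ZMod l)) := by
      simp only [F, Prod.mk.injEq]
      refine ⟨?_, ?_⟩
      · funext v
        exact hq2 v
      · exact ((ZMod.intCast_zmod_eq_zero_iff_dvd m l).2 hm).symm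
    have hqQ : q ∈ Fintype.piFinset Q := Fintype.mem_piFinset.2 hq1
    rw [Finset.coe_union, Finset.coe_image, Finset.coe_image]
    rcases he with rfl | rfl
    · left
      exact ⟨q, hqQ, hqF⟩
    · right
      exact ⟨q, hqQ, hqF⟩
  have h1 : (Sc L l T).ncard ≤ (Fintype.piFinset Q).card + (Fintype.piFinset Q).card := by
    refine (Set.ncard_le_ncard hsub (Finset.finite_toSet _)).trans ?_
    rw [Set.ncard_coe_finset]
    refine (card_union_le _ _).trans ?_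
    exact Nat.add_le_add card_image_le card_image_le
  have h2 : ((Fintype.piFinset Q).card : ℝ) ≤
      ∏ v : VV L l, (Nat.card (𝓞 L ⧸ v.1.asIdeal) : ℝ) / 2 := by
    rw [Fintype.card_piFinset]
    push_cast
    refine prod_le_prod (fun v _ => Nat.cast_nonneg _) fun v _ => ?_
    have h20 : (2 : 𝓞 L ⧸ v.1.asIdeal) ≠ 0 := by
      intro h0
      have h3 : Ideal.Quotient.mk v.1.asIdeal ((2 : ℤ) : 𝓞 L) = 0 := by
        rw [Int.cast_ofNat, map_ofNat]
        exact h0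
      have h4 := int_mem L hl v 2 ((Ideal.Quotient.eq_zero_iff_mem).1 h3)
      have h5 : l ∣ 2 := by exact_mod_cast h4
      exact hl2 ((Nat.prime_dvd_prime_iff_eq hl Nat.prime_two).1 h5)
    have h3 := card_sq (𝓞 L ⧸ v.1.asIdeal) h20
    rw [Set.ncard_eq_toFinset_card _ (Set.toFinite _)] at h3
    exact h3
  have h3 : ((Sc L l T).ncard : ℝ) ≤ ((Fintype.piFinset Q).card : ℝ) + ((Fintype.piFinset Q).card : ℝ) := by
    exact_mod_cast h1
  linarith

end

open Classical in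
theorem cnt2 : S_CNT2 := by
  intro L _ _ l hl hl2 hsq T hT1 hT2
  have : Fact l.Prime := ⟨hl⟩
  have := finite_VV L hl
  have : Fintype (VV L l) := Fintype.ofFinite _
  have : ∀ v : VV L l, Finite (𝓞 L ⧸ v.1.asIdeal) := finite_k L
  have : Finite (∀ v : VV L l, 𝓞 L ⧸ v.1.asIdeal) := inferInstance
  obtain ⟨n, hn⟩ : ∃ n, n = Module.finrank ℚ L := ⟨_, rfl⟩
  obtain ⟨r, hr⟩ : ∃ r, r = Fintype.card (VV L l) := ⟨_, rfl⟩
  obtain ⟨N, hN⟩ : ∃ N, N = N1 L l := ⟨_, rfl⟩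
  rw [← hn]
  have hl0 : (0 : ℝ) < l := by exact_mod_cast hl.pos
  have hl1 : (1 : ℝ) ≤ l := by exact_mod_cast hl.one_lt.le
  have hn0 : 0 < n := by
    rw [hn]
    exact Module.finrank_pos
  have hcardk := prod_card L hl hsq
  have hcardk' : ∏ v : VV L l, (Nat.card (𝓞 L ⧸ v.1.asIdeal) : ℝ) = (l : ℝ) ^ n := by
    rw [hn]
    exact_mod_cast hcardk
  -- number of the primes of norm `l`
  have hNW : N = (univ.filter (fun v : VV L l => Ideal.absNorm v.1.asIdeal = l)).card := by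
    rw [hN]
    unfold N1
    rw [← Fintype.card_subtype, ← Nat.card_eq_fintype_card]
    refine Nat.card_congr
      { toFun := fun v => ⟨⟨v.1, ?_⟩, v.2⟩
        invFun := fun v => ⟨v.1.1, v.2⟩
        left_inv := fun v => rfl
        right_inv := fun v => rfl }
    have h := Ideal.absNorm_mem v.1.asIdeal
    rw [v.2] at h
    exact h
  have hNr : N ≤ r := by
    rw [hNW, hr]
    exact card_filter_le _ _
  have hrn : r ≤ n := by
    have h1 : l ^ r ≤ l ^ n := by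
      rw [hn, ← hcardk, hr, ← Finset.card_univ, ← prod_const]
      exact prod_le_prod' fun v _ => le_card L hl v
    exact (Nat.pow_le_pow_iff_right hl.one_lt).1 h1
  have hNrn : N = r → N = n := by
    intro h
    have h1 : univ.filter (fun v : VV L l => Ideal.absNorm v.1.asIdeal = l) = univ := by
      apply Finset.eq_univ_of_card
      rw [← hNW, h, hr]
    have h2 : ∏ v : VV L l, Nat.card (𝓞 L ⧸ v.1.asIdeal) = ∏ _v : VV L l, l := by
      refine prod_congr rfl fun v _ => ?_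
      have h3 : v ∈ univ.filter (fun v : VV L l => Ideal.absNorm v.1.asIdeal = l) := by
        rw [h1]
        exact mem_univ _
      rw [mem_filter] at h3
      exact (card_eq_norm L v).trans h3.2
    rw [hcardk, prod_const, card_univ, ← hr, ← hn] at h2
    rw [h]
    exact (Nat.pow_right_injective hl.two_le h2).symm
  -- pass to the product of the residue fields
  let Tp : 𝓞 L × ℤ → (∀ v : VV L l, 𝓞 L ⧸ v.1.asIdeal) × ZMod l :=
    fun p => (Th L p.1, (p.2 : ZMod l))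
  have hA : (Pool.Agent.Q161.OD.red L l '' T).ncard ≤ (Tp '' T).ncard := by
    let h : (∀ v : VV L l, 𝓞 L ⧸ v.1.asIdeal) × ZMod l →
        (𝓞 L ⧸ Ideal.span {(l : 𝓞 L)}) × ZMod l := fun y =>
      (if hy : ∃ β, Th L β = y.1 then Ideal.Quotient.mk _ hy.choose else 0, y.2)
    have h1 : ∀ p, h (Tp p) = Pool.Agent.Q161.OD.red L l p := by
      rintro ⟨β, m⟩
      have hy : ∃ β', Th L (l := l) β' = Th L β := ⟨β, rfl⟩
      simp only [h, Tp, Pool.Agent.Q161.OD.red, Prod.mk.injEq, and_true]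
      rw [dif_pos hy]
      have h2 := hy.choose_spec
      rw [Ideal.Quotient.eq, ← iInf_VV L hl hsq, Ideal.mem_iInf]
      intro v
      exact (Ideal.Quotient.eq).1 (congrFun h2 v)
    have h2 : Pool.Agent.Q161.OD.red L l '' T = h '' (Tp '' T) := by
      rw [Set.image_image]
      exact Set.image_congr fun β _ => (h1 β).symm
    rw [h2]
    exact Set.ncard_image_le (Set.toFinite _)
  have hB : Tp '' T ⊆ (S1 L l ×ˢ {z : ZMod l | z ≠ 0}) ∪ ((⋃ v0 : VV L l, Sb L T v0) ∪ Sc L l T) := by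
    rintro _ ⟨⟨β, m⟩, hβ, rfl⟩
    rcases hT1 _ hβ with ⟨hm, h | ⟨v0, hv0, hn0, hβ0, h⟩⟩ | ⟨hm, h⟩
    · left
      simp only at hm h
      refine ⟨?_, ?_⟩
      · intro v h0
        exact h v.1 v.2 ((Ideal.Quotient.eq_zero_iff_mem).1 h0)
      · change (m : ZMod l) ≠ 0
        rw [Ne, ZMod.intCast_zmod_eq_zero_iff_dvd]
        exact hm
    · right
      left
      rw [Set.mem_iUnion]
      refine ⟨⟨v0, hv0⟩, hn0, ⟨β, m⟩, hβ, hm, hβ0, ?_, rfl⟩
      intro v hv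
      exact h v.1 v.2 (fun h' => hv (Subtype.ext h'))
    · right
      right
      exact ⟨⟨β, m⟩, hβ, hm, fun v => h v.1 v.2, rfl⟩
  have hC : ((Pool.Agent.Q161.OD.red L l '' T).ncard : ℝ) ≤
      ((S1 L l).ncard : ℝ) * ((l : ℝ) - 1) +
        (∑ v0 : VV L l, ((Sb L T v0).ncard : ℝ) + (Sc L l T).ncard) := by
    have h0 : (S1 L l ×ˢ {z : ZMod l | z ≠ 0}).ncard = (S1 L l).ncard * (l - 1) := by
      rw [Set.ncard_prod]
      congr 1
      have : {z : ZMod l | z ≠ 0} = ((univ.erase (0 : ZMod l) : Finset (ZMod l)) : Set (ZMod l)) := by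
        ext z; simp
      rw [this, Set.ncard_coe_finset, card_erase_of_mem (mem_univ _), card_univ, ZMod.card]
    have h1 : (Pool.Agent.Q161.OD.red L l '' T).ncard ≤
        (S1 L l).ncard * (l - 1) + (∑ v0 : VV L l, (Sb L T v0).ncard + (Sc L l T).ncard) := by
      refine hA.trans ((Set.ncard_le_ncard hB (Set.toFinite _)).trans ?_)
      refine (Set.ncard_union_le _ _).trans ?_
      rw [h0]
      refine Nat.add_le_add_left ((Set.ncard_union_le _ _).trans ?_) _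
      exact Nat.add_le_add_right (Set.ncard_iUnion_le_of_fintype _) _
    have h4 : ((l - 1 : ℕ) : ℝ) = (l : ℝ) - 1 := by
      rw [Nat.cast_sub hl.one_lt.le, Nat.cast_one]
    rw [← h4]
    exact_mod_cast h1
  -- first kind
  have hD : ((S1 L l).ncard : ℝ) * ((l : ℝ) - 1) ≤ (l : ℝ) ^ (n + 1) * (1 - 1 / (l : ℝ)) ^ (N + 1) := by
    have h1 : ((S1 L l).ncard : ℝ) ≤ (l : ℝ) ^ n * (1 - 1 / (l : ℝ)) ^ N := by
      refine (S1_card L hl).trans (le_of_eq ?_)
      rw [prod_mul_distrib, hcardk', ← prod_filter, prod_const, ← hNW]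
    calc ((S1 L l).ncard : ℝ) * ((l : ℝ) - 1) ≤
        ((l : ℝ) ^ n * (1 - 1 / (l : ℝ)) ^ N) * ((l : ℝ) - 1) :=
          mul_le_mul_of_nonneg_right h1 (by linarith)
      _ = (l : ℝ) ^ (n + 1) * (1 - 1 / (l : ℝ)) ^ (N + 1) := by
          have h2 : (l : ℝ) - 1 = l * (1 - 1 / (l : ℝ)) := by field_simp
          rw [h2]; ring
  have hhalf : ∏ v : VV L l, ((Nat.card (𝓞 L ⧸ v.1.asIdeal) : ℝ) / 2) = (l : ℝ) ^ n / 2 ^ r := by
    rw [prod_div_distrib, hcardk', prod_const, card_univ, hr]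
  -- second kind
  have hE : ∑ v0 : VV L l, ((Sb L T v0).ncard : ℝ) ≤ N * ((l : ℝ) ^ n * (2 / 2 ^ r)) := by
    have h1 : ∀ v0 : VV L l, ((Sb L T v0).ncard : ℝ) ≤
        if Ideal.absNorm v0.1.asIdeal = l then (l : ℝ) ^ n * (2 / 2 ^ r) else 0 := by
      intro v0
      refine (Sb_card L hl hl2 T hT2 v0).trans ?_
      split_ifs with h
      · have h5 : (Nat.card (𝓞 L ⧸ v0.1.asIdeal) : ℝ) = l := by
          exact_mod_cast (card_eq_norm L v0).trans h
        have h2 : (∏ v : VV L l, (if v = v0 then (1 : ℝ) else (Nat.card (𝓞 L ⧸ v.1.asIdeal) : ℝ) / 2)) *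
            ((l : ℝ) / 2) = (l : ℝ) ^ n / 2 ^ r := by
          rw [← hhalf, ← h5]
          have h4 : ∏ v : VV L l, (if v = v0 then (Nat.card (𝓞 L ⧸ v.1.asIdeal) : ℝ) / 2 else 1) =
              (Nat.card (𝓞 L ⧸ v0.1.asIdeal) : ℝ) / 2 := by
            rw [prod_ite_eq' univ v0]
            simp
          rw [← h4, ← prod_mul_distrib]
          refine prod_congr rfl fun v _ => ?_
          split_ifs <;> ring
        have h6 : 0 ≤ ∏ v : VV L l,
            (if v = v0 then (1 : ℝ) else (Nat.card (𝓞 L ⧸ v.1.asIdeal) : ℝ) / 2) := by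
          refine prod_nonneg fun v _ => ?_
          split_ifs <;> positivity
        calc ((l : ℝ) - 1) * ∏ v : VV L l,
              (if v = v0 then (1 : ℝ) else (Nat.card (𝓞 L ⧸ v.1.asIdeal) : ℝ) / 2)
            ≤ l * ∏ v : VV L l,
              (if v = v0 then (1 : ℝ) else (Nat.card (𝓞 L ⧸ v.1.asIdeal) : ℝ) / 2) :=
              mul_le_mul_of_nonneg_right (by linarith) h6
          _ = 2 * ((∏ v : VV L l,
              (if v = v0 then (1 : ℝ) else (Nat.card (𝓞 L ⧸ v.1.asIdeal) : ℝ) / 2)) * ((l : ℝ) / 2)) := by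
              ring
          _ = (l : ℝ) ^ n * (2 / 2 ^ r) := by rw [h2]; ring
      · exact le_refl _
    refine (sum_le_sum fun v0 _ => h1 v0).trans (le_of_eq ?_)
    rw [← sum_filter, sum_const, ← hNW, nsmul_eq_mul]
  have hE2 : ((Sc L l T).ncard : ℝ) ≤ (l : ℝ) ^ n * (2 / 2 ^ r) := by
    refine (Sc_card L hl hl2 T hT2).trans (le_of_eq ?_)
    rw [hhalf]; ring
  -- the constant
  have hF : ((N : ℝ) + 1) * (2 / 2 ^ r) ≤ rho L l := by
    unfold rho
    rw [← hN, ← hn]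
    split_ifs with h2
    · rw [h2, mul_div_assoc]
      have h3 : (2 : ℝ) ^ n ≤ 2 ^ r := pow_le_pow_right₀ (by norm_num) (by omega)
      refine mul_le_mul_of_nonneg_left ?_ (by positivity)
      exact div_le_div_of_nonneg_left (by norm_num) (by positivity) h3
    · have h3 : N + 1 ≤ r := by
        rcases lt_or_eq_of_le hNr with h4 | h4
        · exact h4
        · exact absurd (hNrn h4) h2
      have h4 : (2 : ℝ) ^ (N + 1) ≤ 2 ^ r := pow_le_pow_right₀ (by norm_num) h3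
      have h5 : (N : ℝ) + 1 ≤ 2 ^ N := by exact_mod_cast Nat.lt_two_pow_self
      rw [mul_div_assoc', div_le_one (by positivity)]
      calc ((N : ℝ) + 1) * 2 ≤ 2 ^ N * 2 := by linarith
        _ = 2 ^ (N + 1) := by ring
        _ ≤ 2 ^ r := h4
  have hG := bern (1 / (l : ℝ)) (by positivity) (by rw [div_le_one hl0]; exact hl1) (N + 1)
  push_cast at hG
  have hNn : ((N : ℝ) + 1) ^ 2 ≤ ((n : ℝ) + 1) ^ 2 := by
    have : (N : ℝ) ≤ n := by exact_mod_cast hNr.trans hrn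
    exact pow_le_pow_left₀ (by positivity) (by linarith) 2
  refine (hC.trans (add_le_add hD (add_le_add hE hE2))).trans ?_
  have e1 : (N : ℝ) * ((l : ℝ) ^ n * (2 / 2 ^ r)) + (l : ℝ) ^ n * (2 / 2 ^ r) =
      (l : ℝ) ^ (n + 1) * ((((N : ℝ) + 1) * (2 / 2 ^ r)) / l) := by
    rw [pow_succ]
    field_simp
  rw [e1, ← mul_add]
  refine mul_le_mul_of_nonneg_left ?_ (by positivity)
  have h7 : (((N : ℝ) + 1) * (2 / 2 ^ r)) / l ≤ rho L l / l := div_le_div_of_nonneg_right hF hl0.le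
  have h8 : ((N : ℝ) + 1) ^ 2 * (1 / (l : ℝ)) ^ 2 ≤ ((n : ℝ) + 1) ^ 2 / (l : ℝ) ^ 2 := by
    rw [one_div, inv_pow, ← div_eq_mul_inv]
    exact div_le_div_of_nonneg_right hNn (by positivity)
  rw [← hN]
  have e2 : ((N : ℝ) + 1 - rho L l) / l = (N + 1) * (1 / l) - rho L l / l := by ring
  rw [e2]
  linarith

end Pool.Agent.Q277.OD
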