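import Pool.Agent.Q161.OD.Stm

set_option autoImplicit false

/-!
# Project OD (helper161): job CTB
-/

namespace Pool.Agent.Q277.OD

open NumberField Finset Pool.Agent.Q161.OD

/-- tails of `∑ i ^ (-s)` -/
theorem tail_small (s ε : ℝ) (hs : 1 < s) (hε : 0 < ε) : ∃ N : ℕ, ∀ F : Finset ℕ, (∀ i ∈ F, N ≤ i) →
    ∑ i ∈ F, (i : ℝ) ^ (-s) ≤ ε := by
  have h1 : Summable (fun i : ℕ => (i : ℝ) ^ (-s)) := Real.summable_nat_rpow.2 (by linarith)
  obtain ⟨S, hS⟩ := summable_iff_vanishing_norm.1 h1 ε hε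
  refine ⟨S.sup id + 1, fun F hF => ?_⟩
  have h2 := hS F (by
    rw [Finset.disjoint_left]
    intro i hi hiS
    have h3 := hF i hi
    have h4 : i ≤ S.sup id := Finset.le_sup (f := id) hiS
    omega)
  exact (le_abs_self _).trans h2.le

/-- the real variable part: sum over dyadic boxes -/
theorem boxes (n : ℕ) (hn : 0 < n) (C C' c ε : ℝ) (hC : 0 < C) (hC' : 0 < C') (hc : 0 < c)
    (hε : 0 < ε) : ∃ (j0 : ℕ) (T1 : ℝ), 1 ≤ j0 ∧ 3 ≤ T1 ∧ ∀ X : ℝ, 1 ≤ X → ∀ J : Finset ℕ,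
      (∀ j ∈ J, j0 ≤ j ∧ T1 ≤ C * (X / 2 ^ j) ^ ((1 : ℝ) / n)) →
      ∑ j ∈ J, C' * (C * (X / 2 ^ j) ^ ((1 : ℝ) / n)) ^ n * 2 ^ (j + 1) *
        Real.log (min (C * (X / 2 ^ j) ^ ((1 : ℝ) / n)) (2 ^ (j + 1))) ^ (-(1 + c)) ≤ ε * X := by
  classical
  set s : ℝ := 1 + c with hs
  have hs1 : 1 < s := by linarith
  have hn' : (0 : ℝ) < n := by exact_mod_cast hn
  have hl2 : 0 < Real.log 2 := Real.log_pos (by norm_num)
  set δ : ℝ := Real.log 2 / n with hδ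
  have hδ0 : 0 < δ := by positivity
  set K : ℝ := 2 * C' * C ^ n with hK
  have hK0 : 0 < K := by positivity
  set W : ℝ := Real.log 2 ^ (-s) + δ ^ (-s) with hW
  have hW0 : 0 < W := by
    have := Real.rpow_pos_of_pos hl2 (-s)
    have := Real.rpow_pos_of_pos hδ0 (-s)
    positivity
  obtain ⟨N, hN⟩ := tail_small s (ε / (K * W)) hs1 (by positivity)
  set i0 : ℕ := max (max N 1) ⌈Real.log 3 / δ⌉₊ with hi0
  have hi1 : 1 ≤ i0 := (le_max_right N 1).trans (le_max_left _ _)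
  have hiN : N ≤ i0 := (le_max_left N 1).trans (le_max_left _ _)
  have hi3 : Real.log 3 ≤ i0 * δ := by
    have h1 : Real.log 3 / δ ≤ i0 := (Nat.le_ceil _).trans (by exact_mod_cast le_max_right _ _)
    rwa [div_le_iff₀ hδ0] at h1
  refine ⟨max N 1, Real.exp (i0 * δ), le_max_right _ _, ?_, ?_⟩
  · rw [← Real.exp_log (show (0 : ℝ) < 3 by norm_num)]
    exact Real.exp_le_exp.2 hi3
  intro X hX J hJ
  have hX0 : 0 < X := by linarith
  set Y : ℕ → ℝ := fun j => C * (X / 2 ^ j) ^ ((1 : ℝ) / n) with hY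
  have hY0 : ∀ j, 0 < Y j := fun j => by
    have : 0 < (X / 2 ^ j) ^ ((1 : ℝ) / n) := Real.rpow_pos_of_pos (by positivity) _
    positivity
  have hYn : ∀ j, Y j ^ n = C ^ n * (X / 2 ^ j) := by
    intro j
    rw [hY]
    simp only
    rw [mul_pow, ← Real.rpow_natCast ((X / 2 ^ j) ^ ((1 : ℝ) / n)) n, ← Real.rpow_mul (by positivity),
      one_div, inv_mul_cancel₀ hn'.ne', Real.rpow_one]
  have hlY : ∀ j, Real.log (Y j) = Real.log C + (Real.log X - j * Real.log 2) / n := by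
    intro j
    have h1 : 0 < X / 2 ^ j := by positivity
    rw [hY]
    simp only
    rw [Real.log_mul hC.ne' (Real.rpow_pos_of_pos h1 _).ne', Real.log_rpow h1,
      Real.log_div hX0.ne' (by positivity), Real.log_pow]
    ring
  have hlYge : ∀ j ∈ J, i0 * δ ≤ Real.log (Y j) := by
    intro j hj
    have h1 := (hJ j hj).2
    rw [← Real.log_exp (i0 * δ)]
    exact Real.log_le_log (Real.exp_pos _) h1
  -- each term
  have hterm : ∀ j ∈ J, C' * Y j ^ n * 2 ^ (j + 1) *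
      Real.log (min (Y j) (2 ^ (j + 1))) ^ (-(1 + c)) ≤
      K * X * (Real.log 2 ^ (-s) * ((j + 1 : ℕ) : ℝ) ^ (-s) + Real.log (Y j) ^ (-s)) := by
    intro j hj
    have h1 : C' * Y j ^ n * 2 ^ (j + 1) = K * X := by
      rw [hYn, hK, pow_succ]
      have : (2 : ℝ) ^ j ≠ 0 := by positivity
      field_simp
    rw [h1]
    have h2 : 0 ≤ K * X := by positivity
    refine mul_le_mul_of_nonneg_left ?_ h2
    have h4 : 0 < Real.log (Y j) := lt_of_lt_of_le (by positivity) (hlYge j hj)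
    have h5 : Real.log ((2 : ℝ) ^ (j + 1)) = Real.log 2 * ((j + 1 : ℕ) : ℝ) := by
      rw [Real.log_pow]; ring
    have h6 : 0 < Real.log ((2 : ℝ) ^ (j + 1)) := by rw [h5]; positivity
    have p1 := Real.rpow_pos_of_pos h4 (-s)
    have p2 := Real.rpow_pos_of_pos h6 (-s)
    rcases le_total (Y j) (2 ^ (j + 1)) with h | h
    · rw [min_eq_left h]
      have : 0 ≤ Real.log 2 ^ (-s) * ((j + 1 : ℕ) : ℝ) ^ (-s) := by positivity
      rw [← hs]
      linarith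
    · rw [min_eq_right h, ← hs, h5, Real.mul_rpow hl2.le (by positivity)]
      linarith
  -- the sum of the second parts
  have hB : ∑ j ∈ J, Real.log (Y j) ^ (-s) ≤ δ ^ (-s) * (ε / (K * W)) := by
    rcases J.eq_empty_or_nonempty with h | h
    · rw [h, sum_empty]; positivity
    · set m := J.max' h with hm
      have hmJ : m ∈ J := J.max'_mem h
      have hle : ∀ j ∈ J, j ≤ m := fun j hj => J.le_max' j hj
      have h1 : ∀ j ∈ J, Real.log (Y j) ^ (-s) ≤ δ ^ (-s) * ((i0 + (m - j) : ℕ) : ℝ) ^ (-s) := by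
        intro j hj
        rw [← Real.mul_rpow hδ0.le (by positivity)]
        apply Real.rpow_le_rpow_of_nonpos
        · have : (1 : ℝ) ≤ ((i0 + (m - j) : ℕ) : ℝ) := by exact_mod_cast (by omega)
          positivity
        · have h2 := hlYge m hmJ
          rw [hlY] at h2 ⊢
          push_cast [Nat.cast_sub (hle j hj)]
          have h3 : Real.log C + (Real.log X - j * Real.log 2) / n =
              Real.log C + (Real.log X - m * Real.log 2) / n + (m - j) * δ := by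
            rw [hδ]; ring
          rw [h3]
          linarith
        · linarith
      calc ∑ j ∈ J, Real.log (Y j) ^ (-s) ≤
          ∑ j ∈ J, δ ^ (-s) * ((i0 + (m - j) : ℕ) : ℝ) ^ (-s) := sum_le_sum h1
        _ = δ ^ (-s) * ∑ i ∈ J.image (fun j => i0 + (m - j)), (i : ℝ) ^ (-s) := by
            rw [← mul_sum, sum_image]
            intro a ha b hb hab
            have ha' := hle a ha
            have hb' := hle b hb
            simp only at hab
            omega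
        _ ≤ δ ^ (-s) * (ε / (K * W)) := by
            refine mul_le_mul_of_nonneg_left (hN _ ?_) (by positivity)
            intro i hi
            rw [mem_image] at hi
            obtain ⟨j, -, rfl⟩ := hi
            omega
  have hA : ∑ j ∈ J, Real.log 2 ^ (-s) * ((j + 1 : ℕ) : ℝ) ^ (-s) ≤
      Real.log 2 ^ (-s) * (ε / (K * W)) := by
    rw [← mul_sum]
    refine mul_le_mul_of_nonneg_left ?_ (by positivity)
    have h1 : ∑ j ∈ J, ((j + 1 : ℕ) : ℝ) ^ (-s) =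
        ∑ i ∈ J.image (fun j : ℕ => (j + 1 : ℕ)), ((i : ℕ) : ℝ) ^ (-s) := by
      rw [sum_image]
      intro a _ b _ hab
      simp only at hab
      omega
    rw [h1]
    apply hN
    intro i hi
    rw [mem_image] at hi
    obtain ⟨j, hj, rfl⟩ := hi
    have := (hJ j hj).1
    have := le_max_left N 1
    omega
  calc ∑ j ∈ J, C' * Y j ^ n * 2 ^ (j + 1) * Real.log (min (Y j) (2 ^ (j + 1))) ^ (-(1 + c))
      ≤ ∑ j ∈ J, K * X * (Real.log 2 ^ (-s) * ((j + 1 : ℕ) : ℝ) ^ (-s) + Real.log (Y j) ^ (-s)) :=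
        sum_le_sum hterm
    _ = K * X * (∑ j ∈ J, Real.log 2 ^ (-s) * ((j + 1 : ℕ) : ℝ) ^ (-s) +
          ∑ j ∈ J, Real.log (Y j) ^ (-s)) := by rw [← mul_sum, sum_add_distrib]
    _ ≤ K * X * (Real.log 2 ^ (-s) * (ε / (K * W)) + δ ^ (-s) * (ε / (K * W))) := by
        refine mul_le_mul_of_nonneg_left (add_le_add hA hB) (by positivity)
    _ = ε * X := by
        rw [← add_mul, ← hW]
        field_simp

theorem ctb : S_CORE2 → S_CTB := by
  classical
  intro hcore L _ _ hn B C T hB hC hT ε hε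
  obtain ⟨c, C', hc, hC', hT2⟩ := hcore L hn B hB
  have hT3 := hT2 T hT
  set n := Module.finrank ℚ L with hnd
  have hn0 : 0 < n := by omega
  have hn' : (0 : ℝ) < n := by exact_mod_cast hn0
  obtain ⟨j0, T1, hj0, hT1, hbox⟩ := boxes n hn0 C C' c ε hC hC' hc hε
  refine ⟨2 ^ j0, T1, fun X hX => ?_⟩
  obtain ⟨R, hR⟩ : ∃ R : ℕ, X ≤ 2 ^ R := by
    obtain ⟨R, hR⟩ := pow_unbounded_of_one_lt X (show (1 : ℝ) < 2 by norm_num)
    exact ⟨R, hR.le⟩
  set Y : ℕ → ℝ := fun j => C * (X / 2 ^ j) ^ ((1 : ℝ) / n) with hY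
  let J : Finset ℕ := (range (R + 1)).filter fun j => j0 ≤ j ∧ T1 ≤ Y j
  let Bx : ℕ → Set (𝓞 L × ℤ) := fun j =>
    {p ∈ T | (∀ σ : L →+* ℂ, ‖σ (p.1 : L)‖ ≤ Y j) ∧ |(p.2 : ℝ)| ≤ 2 ^ (j + 1)}
  have hJ : ∀ j ∈ J, j0 ≤ j ∧ T1 ≤ Y j := fun j hj => (mem_filter.1 hj).2
  have hBx : ∀ j ∈ J, (Bx j).Finite ∧ (((Bx j).ncard : ℕ) : ℝ) ≤
      C' * Y j ^ n * 2 ^ (j + 1) * Real.log (min (Y j) (2 ^ (j + 1))) ^ (-(1 + c)) := by
    intro j hj
    obtain ⟨h1, h2⟩ := hJ j hj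
    have h3 : (3 : ℝ) ≤ 2 ^ (j + 1) := by
      have h4 : (2 : ℝ) ^ (1 + 1) ≤ 2 ^ (j + 1) := pow_le_pow_right₀ (by norm_num) (by omega)
      norm_num at h4 ⊢
      linarith
    have h5 := hT3 (Y j) (2 ^ (j + 1)) (hT1.trans h2) h3
    exact h5
  -- the set is contained in the union of the boxes
  have hcov : {p ∈ T | (2 : ℝ) ^ j0 < p.2 ∧ 1 ≤ p.2 ∧ (p.2 : ℝ) ≤ X ∧
      T1 ≤ C * (X / p.2) ^ ((1 : ℝ) / n) ∧
      ∀ σ : L →+* ℂ, ‖σ (p.1 : L)‖ ≤ C * (X / p.2) ^ ((1 : ℝ) / n)} ⊆ ⋃ j ∈ J, Bx j := by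
    rintro ⟨α, m⟩ ⟨hpT, h1, h2, h3, h4, h5⟩
    simp only at h1 h2 h3 h4 h5
    obtain ⟨k, hk⟩ : ∃ k : ℕ, m = k := ⟨m.toNat, by omega⟩
    subst hk
    have hk1 : 1 ≤ k := by exact_mod_cast h2
    have hkr : (0 : ℝ) < k := by exact_mod_cast hk1
    simp only [Int.cast_natCast] at h1 h3 h4 h5
    set j := Nat.log 2 k with hj
    have a1 : 2 ^ j ≤ k := Nat.pow_log_le_self 2 (by omega)
    have a2 : k < 2 ^ (j + 1) := Nat.lt_pow_succ_log_self (by norm_num) k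
    have a1' : (2 : ℝ) ^ j ≤ k := by exact_mod_cast a1
    have a2' : (k : ℝ) ≤ 2 ^ (j + 1) := by exact_mod_cast a2.le
    have hmono : C * (X / k) ^ ((1 : ℝ) / n) ≤ Y j := by
      simp only [hY]
      have hX0 : 0 < X := by linarith
      gcongr
    have hjJ : j ∈ J := by
      rw [mem_filter, mem_range]
      refine ⟨?_, ?_, h4.trans hmono⟩
      · have : (2 : ℝ) ^ j ≤ 2 ^ R := (a1'.trans h3).trans hR
        rw [pow_le_pow_iff_right₀ (by norm_num)] at this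
        omega
      · have : (2 : ℝ) ^ j0 < 2 ^ (j + 1) := lt_of_lt_of_le h1 a2'
        rw [pow_lt_pow_iff_right₀ (by norm_num)] at this
        omega
    rw [Set.mem_iUnion₂]
    refine ⟨j, hjJ, hpT, fun σ => (h5 σ).trans hmono, ?_⟩
    simp only [Int.cast_natCast]
    rw [abs_of_pos hkr]
    exact a2'
  have hfin : (⋃ j ∈ J, Bx j).Finite := J.finite_toSet.biUnion fun j hj => (hBx j hj).1
  refine ⟨hfin.subset hcov, ?_⟩
  have hcard : (⋃ j ∈ J, Bx j).ncard ≤ ∑ j ∈ J, (Bx j).ncard := by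
    let F : ℕ → Finset (𝓞 L × ℤ) := fun j => if h : (Bx j).Finite then h.toFinset else ∅
    have e1 : (⋃ j ∈ J, Bx j) = ((J.biUnion F : Finset (𝓞 L × ℤ)) : Set (𝓞 L × ℤ)) := by
      ext p
      simp only [Set.mem_iUnion, exists_prop, coe_biUnion, mem_coe]
      constructor
      · rintro ⟨j, hj, hp⟩
        refine ⟨j, hj, ?_⟩
        simp only [F, (hBx j hj).1, dif_pos, Set.Finite.mem_toFinset]
        exact hp
      · rintro ⟨j, hj, hp⟩
        refine ⟨j, hj, ?_⟩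
        simp only [F, (hBx j hj).1, dif_pos, Set.Finite.mem_toFinset] at hp
        exact hp
    rw [e1, Set.ncard_coe_finset]
    refine card_biUnion_le.trans (sum_le_sum fun j hj => ?_)
    simp only [F, (hBx j hj).1, dif_pos]
    exact (Set.ncard_eq_toFinset_card (Bx j) (hBx j hj).1).symm.le
  calc (({p ∈ T | (2 : ℝ) ^ j0 < p.2 ∧ 1 ≤ p.2 ∧ (p.2 : ℝ) ≤ X ∧
        T1 ≤ C * (X / p.2) ^ ((1 : ℝ) / n) ∧
        ∀ σ : L →+* ℂ, ‖σ (p.1 : L)‖ ≤ C * (X / p.2) ^ ((1 : ℝ) / n)}.ncard : ℕ) : ℝ)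
      ≤ (((⋃ j ∈ J, Bx j).ncard : ℕ) : ℝ) := by exact_mod_cast Set.ncard_le_ncard hcov hfin
    _ ≤ ∑ j ∈ J, ((Bx j).ncard : ℝ) := by exact_mod_cast hcard
    _ ≤ ∑ j ∈ J, C' * Y j ^ n * 2 ^ (j + 1) *
          Real.log (min (Y j) (2 ^ (j + 1))) ^ (-(1 + c)) := sum_le_sum fun j hj => (hBx j hj).2
    _ ≤ ε * X := hbox X hX J hJ

end Pool.Agent.Q277.OD
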